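import Pool.Agent.W5h52.ZP.Virt

/-!
Zero in the spectrum for closed aspherical manifolds (and finite aspherical complexes) `M` which
fibre over a closed aspherical manifold `B` of dimension at most four (or over a finite aspherical
complex with nonzero `ℓ²`-cohomology in a degree at most two), the fundamental group of the fibre
being amenable with finite first Betti number; more generally `B` may have dimension at most
`2 m + 2` if the rational homology of the fibre is finite dimensional in degree `m` and distal of
finite dimension in the degrees from `1` to `m - 1`. The bundle need not have a section, and there is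
no condition on the monodromy in degree `m` or on the homology of the fibre above degree `m`.

A closed aspherical manifold `M` with fundamental group `G` is homotopy equivalent to a finite CW
complex, and the cellular chain complex of the universal cover of that complex is a finite free
resolution `X` of the trivial `ℤ[G]`-module `ℤ` (`Pool.Agent.H919R4.ZS.FinRes`). Its homology with
coefficients in `C*_r(G)` is the homology of `M` with these coefficients. For a fibre bundle
`F → M → B` of closed aspherical manifolds, `N = π_1(F)` is a normal subgroup of `G` with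
`G/N = π_1(B)`; here `Y` is the resolution given by `B`, `Y.len` is the dimension of `B` and
`euler Y` (`Pool.Agent.TH38.ZT.euler`) is its Euler characteristic. Amenability is the Foelner
condition (`Pool.Agent.H496R3.ZS.IsAmenable`).

Examples (not formalised here): `π_1(F)` amenable, `dim B ≤ 4` and `0` in the spectrum for `B` (for
instance `χ(B) ≠ 0`), with any monodromy, such as a torus bundle with monodromy in `GL_k(ℤ)`;
`π_1(F)` amenable with `b_1(F) ≤ 1` (then the monodromy on `H_1` is given by signs), `dim B ≤ 6` and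
`0` in the spectrum for `B`.
-/

set_option autoImplicit false

namespace Pool.Agent.Results.MP_48737f_gt.AmenableFibreFourBase

open Pool.Agent.H919R4.ZS (FinRes toRed Hil toOp)
open Pool.Agent.H496R3.ZS (IsAmenable)
open Pool.Agent.TH38.ZT (euler)
open MonoidAlgebra (single)

section

variable {G : Type} [Group G] (X : FinRes G) {S : Type} [Ring S] (φ : MonoidAlgebra ℤ G →+* S)
  (q : ℕ)

/-- The homology `H_q(S ⊗_{ℤ[G]} X)` (cycles modulo boundaries), an `S`-module. -/
def Homology : Type := X.homology φ q

/-- The addition of the homology. -/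
noncomputable instance instAddCommGroupHomology : AddCommGroup (Homology X φ q) :=
  Submodule.Quotient.addCommGroup _

/-- The homology as a module. -/
noncomputable instance instModuleHomology : Module S (Homology X φ q) :=
  Submodule.Quotient.module _

end

/-- The ring homomorphism `ℤ[G] → ℚ[G/N]`. So `Homology X (toRat N) q`, the homology of
`ℚ[G/N] ⊗_{ℤ[G]} X`, is the `ℚ[G/N]`-module `H_q(N; ℚ)`. -/
noncomputable def toRat {G : Type} [Group G] (N : Subgroup G) [N.Normal] :
    MonoidAlgebra ℤ G →+* MonoidAlgebra ℚ (G ⧸ N) :=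
  (MonoidAlgebra.mapRingHom (G ⧸ N) (Int.castRingHom ℚ)).comp
    (MonoidAlgebra.mapDomainRingHom ℤ (QuotientGroup.mk' N))

section

variable (Q : Type) [Group Q] (W : Type) [AddCommGroup W] [Module (MonoidAlgebra ℚ Q) W]

/-- The `ℚ[Q]`-module `W` is finite dimensional over `ℚ`: it is spanned by finitely many elements.
(`single 1 c` is the rational number `c` as an element of `ℚ[Q]`.) -/
def FinDim : Prop :=
  ∃ (r : ℕ) (v : Fin r → W), ∀ x : W, ∃ c : Fin r → ℚ,
    x = ∑ i, (single 1 (c i) : MonoidAlgebra ℚ Q) • v i

/-- For submodules `F ≤ F'` of a finite dimensional module `W`: the action of `Q` on `F' / F` is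
bounded. That is, for every linear form `f` on `W` which vanishes on `F` (an additive map between
rational vector spaces is linear) and every `w ∈ F'` the numbers `f (g w)`, `g ∈ Q`, are bounded. It
means that the entries of the matrices of the elements of `Q` with respect to a basis of `F' / F` are
bounded. -/
def BoundedStep (F F' : Submodule (MonoidAlgebra ℚ Q) W) : Prop :=
  ∀ f : W →+ ℚ, (∀ x ∈ F, f x = 0) → ∀ w ∈ F', ∃ C : ℚ, ∀ g : Q,
    |f ((single g 1 : MonoidAlgebra ℚ Q) • w)| ≤ C

/-- The `ℚ[Q]`-module `W` is distal of finite dimension: it is finite dimensional and has a finite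
increasing filtration by submodules such that the action of `Q` on the quotients `F (i + 1) / F i` is
bounded. For example, a subgroup of finite index in `Q` acts nilpotently on it. -/
def Distal : Prop :=
  FinDim Q W ∧ ∃ (r : ℕ) (F : ℕ → Submodule (MonoidAlgebra ℚ Q) W), F 0 = ⊥ ∧ F r = ⊤ ∧
    ∀ i, F i ≤ F (i + 1) ∧ BoundedStep Q W (F i) (F (i + 1))

end

section

variable {G : Type} [Group G] (N : Subgroup G) [N.Normal] (X : FinRes G)

/-- The rational vector space `H_q(N; ℚ)` is finite dimensional. -/
def FiniteHomology (q : ℕ) : Prop := FinDim (G ⧸ N) (Homology X (toRat N) q)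

/-- The `ℚ[G/N]`-module `H_q(N; ℚ)` is distal of finite dimension. -/
def DistalHomology (q : ℕ) : Prop := Distal (G ⧸ N) (Homology X (toRat N) q)

end

section

variable {Q : Type} [Group Q] (Y : FinRes Q)

/-- `H_i(Q; C*_r(Q)) ≠ 0`. -/
def NonAcyclic (i : ℕ) : Prop := Nontrivial (Y.homology (toRed Q) i)

/-- The coboundary `ℓ²(Q)^(n i) → ℓ²(Q)^(n (i+1))` of the cochain complex
`Hom_{ℤ[Q]}(Y_*, ℓ²(Q))`; `toOp` is the action of `ℤ[Q]` on `ℓ²(Q)` by left translations. -/
noncomputable def l2cobd (i : ℕ) (f : Fin (Y.n i) → Hil Q) : Fin (Y.n (i + 1)) → Hil Q :=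
  fun k => ∑ j, toOp Q (Y.d i k j) (f j)

/-- `H^i(Q; ℓ²(Q)) ≠ 0` (unreduced `ℓ²`-cohomology): some cocycle is not a coboundary. This holds
if the `i`-th `ℓ²`-Betti number of `Q` is not zero. -/
def L2NonAcyclic : ℕ → Prop
  | 0 => ∃ f, l2cobd Y 0 f = 0 ∧ f ≠ 0
  | i + 1 => ∃ f, l2cobd Y (i + 1) f = 0 ∧ ∀ g, l2cobd Y i g ≠ f

/-- `Q` is a Poincaré duality group whose dimension is the length `n` of `Y`: `H^k(Q; ℤ[Q]) = 0`
for `k < n` and `H^n(Q; ℤ[Q])` is infinite cyclic (the action of `Q` on it can be nontrivial). The
fundamental group of a closed aspherical manifold is of this kind. -/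
def PoincareDuality : Prop :=
  (∀ k < Y.len, Subsingleton (Y.cohomology k)) ∧ Nonempty (Y.cohomology Y.len ≃+ ℤ)

end

/-- Let `N` be an amenable normal subgroup of `G` such that `H_m(N; ℚ)` is finite dimensional and the
modules `H_q(N; ℚ)`, `1 ≤ q < m`, are distal of finite dimension (for `m = 1`: the first Betti number
of `N` is finite). Let `X` and `Y` be finite free resolutions of `ℤ` over `ℤ[G]` and over `ℤ[Q]`,
`Q = G/N`, such that
* `H^i(Q; ℓ²(Q)) ≠ 0` for some `i ≤ m + 1`, or
* `Y` has length at most `m + 1`, or `Q` is a Poincaré duality group of dimension at most `2m + 2`,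
  and `χ(Q) ≠ 0` or `H_i(Q; C*_r(Q)) ≠ 0` for some `i`.

Then `H_j(G; C*_r(G)) ≠ 0` for some `j ≤ m + 1`.

For `m = 1`: if `F → M → B` is a fibre bundle of closed aspherical manifolds with `dim B ≤ 4`, with
`π_1(F)` amenable and with `0` in the spectrum for `B` (for instance `χ(B) ≠ 0`), then
`H_j(M; C*_r(π_1(M))) ≠ 0` for some `j ≤ 2`. -/
theorem result (G : Type) [Group G] (N : Subgroup G) [N.Normal] (hN : IsAmenable N)
    (X : FinRes G) (m : ℕ) (h1 : ∀ q, 1 ≤ q → q < m → DistalHomology N X q)
    (h2 : FiniteHomology N X m) (Y : FinRes (G ⧸ N))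
    (hY : (∃ i ≤ m + 1, L2NonAcyclic Y i) ∨
      ((Y.len ≤ m + 1 ∨ (Y.len ≤ 2 * m + 2 ∧ PoincareDuality Y)) ∧
        (euler Y ≠ 0 ∨ ∃ i, NonAcyclic Y i))) :
    ∃ j ≤ m + 1, NonAcyclic X j := by
  refine Pool.Agent.W5h52.ZP.mainD N hN X Y m (fun q h3 h4 => by
    obtain ⟨⟨_, hs⟩, r, F, h5, h6, h7⟩ := h1 q h3 h4
    exact Pool.Agent.W5h52.ZP.dis_of_form hs r F h5 h6 h7) h2 (hY.imp_left ?_)
  rintro ⟨i, hi, h⟩
  refine ⟨i, hi, fun hv => ?_⟩
  cases i with
  | zero =>
    obtain ⟨f, hf, hne⟩ := h
    exact hne (hv f hf)
  | succ i =>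
    obtain ⟨f, hf, hne⟩ := h
    obtain ⟨w, hw⟩ := hv f hf
    exact hne w hw

end Pool.Agent.Results.MP_48737f_gt.AmenableFibreFourBase
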