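import Pool.Agent.W5h52.ZP.Virt

/-!
Zero in the spectrum for fibre bundles of closed aspherical manifolds (and finite aspherical
complexes) whose fibre has amenable fundamental group and finite dimensional rational homology on
which the fundamental group of the base acts distally: if `0` is in the spectrum for the base then it
is in the spectrum for the total space. The bundle need not have a section, the dimensions of the
fibre and of the base are arbitrary, and the rational homology of the fibre need not vanish.

A closed aspherical manifold `M` with fundamental group `G` is homotopy equivalent to a finite CW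
complex, and the cellular chain complex of the universal cover of that complex is a finite free
resolution `X` of the trivial `ℤ[G]`-module `ℤ` (`Pool.Agent.H919R4.ZS.FinRes`). Its homology with
coefficients in `C*_r(G)` is the homology of `M` with these coefficients. For a fibre bundle
`F → M → E` of closed aspherical manifolds, `N = π_1(F)` is a normal subgroup of `G` with
`G/N = π_1(E)`, and `H_q(N; ℚ) = H_q(F; ℚ)` with the monodromy action of `π_1(E)`.
`Tower (G/N) B` (`Pool.Agent.TH38.ZT.Tower`): `B` arises from `G/N` by successively dividing out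
infinite cyclic normal subgroups (`B = G/N` is allowed). Amenability is the Foelner condition
(`Pool.Agent.H496R3.ZS.IsAmenable`), `euler Y` (`Pool.Agent.TH38.ZT.euler`) is the Euler
characteristic.

The proof: if `H_j(G; C*_r(G)) = 0` for `j ≤ i` then `H^j(G; A) = 0` for `j ≤ i` and all modules `A`
over `C*_r(Q)`, `Q = G/N`. By induction on `j` one shows `Ext^j_{ℚ[Q]}(ℚ, A) = 0` for all such `A`
and `j ≤ i`, using `Ext^t_{ℚ[Q]}(H_q(N; ℚ), A) = 0` for `t + q < j` and `q ≥ 1`. The latter follows
from `Ext^t_{ℚ[Q]}(ℚ, A') = 0` for all `A'`, because for a bounded finite dimensional representation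
`W` of `Q` the module `A' = Hom(W, A)` is again a module over `C*_r(Q)`: the tensor product of the
regular representation with `W` is similar to a multiple of the regular representation by a bounded
intertwiner.
-/

set_option autoImplicit false

namespace Pool.Agent.Results.MP_48737f_gt.DistalMonodromy

open Pool.Agent.H919R4.ZS (FinRes toRed)
open Pool.Agent.H496R3.ZS (IsAmenable)
open Pool.Agent.TH38.ZT (Tower euler)
open MonoidAlgebra (single)

section

variable {G : Type} [Group G] (X : FinRes G) {S : Type} [Ring S] (φ : MonoidAlgebra ℤ G →+* S)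
  (q : ℕ)

/-- The homology `H_q(S ⊗_{ℤ[G]} X)` (cycles modulo boundaries), an `S`-module. -/
def Homology : Type := X.homology φ q

/-- The addition of the homology. -/
noncomputable instance instAddCommGroupHomology : AddCommGroup (Homology X φ q) :=
  Submodule.Quotient.addCommGroup _

/-- The homology as a module. -/
noncomputable instance instModuleHomology : Module S (Homology X φ q) :=
  Submodule.Quotient.module _

end

/-- The ring homomorphism `ℤ[G] → ℚ[G/N]`. So `Homology X (toRat N) q`, the homology of
`ℚ[G/N] ⊗_{ℤ[G]} X`, is the `ℚ[G/N]`-module `H_q(N; ℚ)`. -/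
noncomputable def toRat {G : Type} [Group G] (N : Subgroup G) [N.Normal] :
    MonoidAlgebra ℤ G →+* MonoidAlgebra ℚ (G ⧸ N) :=
  (MonoidAlgebra.mapRingHom (G ⧸ N) (Int.castRingHom ℚ)).comp
    (MonoidAlgebra.mapDomainRingHom ℤ (QuotientGroup.mk' N))

section

variable (Q : Type) [Group Q] (W : Type) [AddCommGroup W] [Module (MonoidAlgebra ℚ Q) W]

/-- The `ℚ[Q]`-module `W` is finite dimensional over `ℚ`: it is spanned by finitely many elements.
(`single 1 c` is the rational number `c` as an element of `ℚ[Q]`.) -/
def FinDim : Prop :=
  ∃ (r : ℕ) (v : Fin r → W), ∀ x : W, ∃ c : Fin r → ℚ,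
    x = ∑ i, (single 1 (c i) : MonoidAlgebra ℚ Q) • v i

/-- For submodules `F ≤ F'` of a finite dimensional module `W`: the action of `Q` on `F' / F` is
bounded. That is, for every linear form `f` on `W` which vanishes on `F` (an additive map between
rational vector spaces is linear) and every `w ∈ F'` the numbers `f (g w)`, `g ∈ Q`, are bounded. It
means that the entries of the matrices of the elements of `Q` with respect to a basis of `F' / F` are
bounded. -/
def BoundedStep (F F' : Submodule (MonoidAlgebra ℚ Q) W) : Prop :=
  ∀ f : W →+ ℚ, (∀ x ∈ F, f x = 0) → ∀ w ∈ F', ∃ C : ℚ, ∀ g : Q,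
    |f ((single g 1 : MonoidAlgebra ℚ Q) • w)| ≤ C

/-- The `ℚ[Q]`-module `W` is distal of finite dimension: it is finite dimensional and has a finite
increasing filtration by submodules such that the action of `Q` on the quotients `F (i + 1) / F i` is
bounded. -/
def Distal : Prop :=
  FinDim Q W ∧ ∃ (r : ℕ) (F : ℕ → Submodule (MonoidAlgebra ℚ Q) W), F 0 = ⊥ ∧ F r = ⊤ ∧
    ∀ i, F i ≤ F (i + 1) ∧ BoundedStep Q W (F i) (F (i + 1))

end

/-- The `ℚ[G/N]`-module `H_q(N; ℚ)` is distal of finite dimension. -/
def DistalHomology {G : Type} [Group G] (N : Subgroup G) [N.Normal] (X : FinRes G) (q : ℕ) : Prop :=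
  Distal (G ⧸ N) (Homology X (toRat N) q)

/-- For example, `W` is distal if it is finite dimensional and a normal subgroup `K` of finite index
in `Q` acts nilpotently: for some `n` the products of `n` elements `k - 1`, `k ∈ K`, are zero on
`W` (the other direction holds if `Q` preserves a lattice in `W`). -/
theorem distal_of_virtually_nilpotent (Q : Type) [Group Q] (W : Type) [AddCommGroup W]
    [Module (MonoidAlgebra ℚ Q) W] (h : FinDim Q W) (K : Subgroup Q) [K.Normal] [K.FiniteIndex]
    (n : ℕ) (hn : ∀ l : List Q, (∀ k ∈ l, k ∈ K) → l.length = n → ∀ x : W,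
      (l.map fun k => (single k 1 - 1 : MonoidAlgebra ℚ Q)).prod • x = 0) : Distal Q W := by
  obtain ⟨h0, h1, h2⟩ := Pool.Agent.W5h52.ZP.form_of_virt (W := W) K n hn
  exact ⟨h, n, _, h0, h1, h2⟩

/-- Let `N` be an amenable normal subgroup of `G`, let `B` arise from `G/N` by successively dividing
out infinite cyclic normal subgroups, let `Y` be a finite free resolution of `ℤ` over `ℤ[B]`, and let
`i` be a number such that
* `H_i(B; C*_r(B)) ≠ 0`, or
* `i` is the length of `Y` and the Euler characteristic of `Y` is not zero, or
* `i = 2`, and the length of `Y` is at most two or `H^k(B; ℤ[B]) ≠ 0` for some `k ≤ 2`.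
Let `X` be a finite free resolution of `ℤ` over `ℤ[G]` such that the modules `H_q(N; ℚ)`,
`1 ≤ q < i`, are distal of finite dimension over `ℚ` (for instance, finite dimensional with
nilpotent action of a subgroup of finite index in `G/N`). Then there is `j ≤ i` with
`H_j(G; C*_r(G)) ≠ 0`. -/
theorem result (G : Type) [Group G] (N : Subgroup G) [N.Normal] (hN : IsAmenable N) (B : Type)
    [Group B] (hB : Tower (G ⧸ N) B) (Y : FinRes B) (i : ℕ)
    (hY : Nontrivial (Y.homology (toRed B) i) ∨ (i = Y.len ∧ euler Y ≠ 0) ∨
      (i = 2 ∧ (Y.len ≤ 2 ∨ ∃ k ≤ 2, Nontrivial (Y.cohomology k))))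
    (X : FinRes G) (hX : ∀ q, 1 ≤ q → q < i → DistalHomology N X q) :
    ∃ j ≤ i, Nontrivial (X.homology (toRed G) j) :=
  Pool.Agent.W5h52.ZP.mainT N hN B hB Y i hY X fun q h1 h2 => by
    obtain ⟨⟨_, hs⟩, r, F, h3, h4, h5⟩ := hX q h1 h2
    exact Pool.Agent.W5h52.ZP.dis_of_form hs r F h3 h4 h5

end Pool.Agent.Results.MP_48737f_gt.DistalMonodromy
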