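import Pool.Agent.W5h87.ZInt.Main

/-!
# Zero in the spectrum or a uniform integral isoperimetric inequality in codimension at most two

Let `G` be the fundamental group of a closed aspherical manifold `M` of dimension `n` (or of a
finite aspherical complex) and let `X` be the cellular chain complex of the universal cover of a
finite complex homotopy equivalent to `M`, a finite free resolution of the trivial
`ℤ[G]`-module `ℤ` (`Pool.Agent.H919R4.ZS.FinRes`). For a subgroup `C` the cochains of `X` with
values in the permutation module `ℤ[G/C]` are the integral cochains with finite support of the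
covering `M̃/C`; by Poincaré duality they correspond to the chains with compact support in the
complementary dimension.

Either zero is in the spectrum of `M`, more precisely `H_i(M; C*_r(G)) ≠ 0` for some `i ≤ 2`, or
there is a constant `N` such that for **all** amenable subgroups `C` of infinite index
simultaneously

* every integral cocycle `z` with finite support in degree `k ≤ 2` is the coboundary of an integral
  cochain `y` with finite support and `nsq y ≤ N * nsq z` (for cycles with coefficients `±1` this
  is a linear isoperimetric inequality for integral cycles of dimension `n - k` in `M̃/C`);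
* the flux of a bounded cycle (flow) `φ` through an integral `1`-cochain `θ` (a hypersurface) is
  at most `N` times the square norm of the coboundary of `θ` (the boundary of the hypersurface).
-/

set_option autoImplicit false

namespace Pool.Agent.Results.MP_48737f_gt.IntegralIsoperimetric

open Pool.Agent.H919R4.ZS (FinRes toRed)
open Pool.Agent.H496R3.ZS (IsAmenable)
open Pool.Agent.W5h87.ZInt (IsCocycle IsoZ FlowZ)

/-- Let `X` be a finite free resolution of `ℤ` over `ℤ[G]`. Then the homology of `X` with
coefficients in the reduced group `C*`-algebra `C*_r(G)` is nonzero in some degree `i ≤ 2`, or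
there is `N` such that for all amenable subgroups `C ≤ G` of infinite index: cocycles of degree `0`
with values in `ℤ[G/C]` vanish, each cocycle `z` of degree `1` or `2` with values in `ℤ[G/C]` is
the coboundary of some `y` with values in `ℤ[G/C]` and `nsq y ≤ N * nsq z` (`IsoZ`), and
`|⟨θ, φ⟩| ≤ N * nsq (δθ)` for all `1`-cochains `θ` with values in `ℤ[G/C]` and all real functions
`φ` bounded by `1` on the `1`-cells of the covering which annihilate the coboundaries of the
`0`-cochains with values in `ℤ[G/C]` (`FlowZ`). -/
theorem result (G : Type) [Group G] (X : FinRes G) :
    (∃ i ≤ 2, Nontrivial (X.homology (toRed G) i)) ∨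
    ∃ N : ℕ, ∀ C : Subgroup G, IsAmenable C → Infinite (G ⧸ C) →
      (∀ z, IsCocycle X (G ⧸ C) 0 z → ∀ j, z j = 0) ∧
      IsoZ X (G ⧸ C) N 0 ∧ IsoZ X (G ⧸ C) N 1 ∧ FlowZ X (G ⧸ C) N :=
  Pool.Agent.W5h87.ZInt.main X

end Pool.Agent.Results.MP_48737f_gt.IntegralIsoperimetric
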