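import Pool.Agent.W5h87.ZSlow.Main

/-!
# Zero in the spectrum for closed aspherical manifolds with a slow covering of subexponential growth

Let `M` be a closed aspherical manifold (or any finite aspherical complex) with fundamental group `G`, let
`M'` be the covering of `M` with fundamental group `H ≤ G`, and suppose that

* `M'` has subexponential growth (`SubexpCosets H`: the number of the cosets `H g` at distance at most `n`
  from `H` grows subexponentially),
* `M'` is homotopy equivalent to a finite aspherical complex `F`, by a map `M' → F` which is slow: the chain
  map `v` which it induces on the universal covers has norm at most `C_δ exp(δ n)` at distance `n` from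
  the base point, for every `δ > 0` (`ChainMap.Slow`; for example the map is Lipschitz with constant
  `exp(o(n))` on the ball of radius `n` in `M'`).

If zero is in the spectrum of `F` in some degree `i ≤ p`, that is, `H_i(F; C*_r(H)) ≠ 0` (for instance if
the Euler characteristic of `F` is not zero and `dim F ≤ p`), then zero is in the spectrum of `M` in some
degree `j ≤ p`: `H_j(M; C*_r(G)) ≠ 0`. There is no hypothesis on the fundamental groups (such as the strong
Novikov conjecture).

Examples (not formalised here): the closed aspherical manifolds which fibre over the circle, or over an
infranilmanifold, with a closed aspherical fibre `F` of nonzero Euler characteristic (or with zero in the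
spectrum), such that the dilatation of the holonomy along the base paths of length `n` grows
subexponentially in `n`; for instance the mapping tori of homeomorphisms `f` of `F` such that the Lipschitz
constants of the lifts of `f ^ n` and `f ^ (-n)` grow subexponentially (Dehn twists along incompressible
tori, and generally all homeomorphisms of polynomial growth).

The proof: if `H_j(M; C*_r(G)) = 0` for all `j ≤ p` then the complex of `M` has a contraction in the
degrees `≤ p` up to an error `E` with norm less than `1/2` and coefficients in the group ring `ℂ[G]`;
by the geometric series there is one up to the error `E ^ k`, of norm less than `2^(-k)` and supported at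
distance `O(k)`. Composed with the slow chain map `v` and with the inclusion of the complex of `F` the error
has norm at most `exp(o(k)) 2^(-k)`, because the restriction `C*_r(G) → C*_r(H)` does not increase the
norm; so the complex of `F` has a contraction in the degrees `≤ p` with coefficients in `C*_r(H)`.
-/

set_option autoImplicit false

namespace Pool.Agent.Results.MP_48737f_gt.SlowCoverings

open Pool.Agent.H919R4.ZS Pool.Agent.TH38.ZT Pool.Agent.W5h87.ZSlow

/-- **Zero in the spectrum from a slow covering of subexponential growth.** Let `X` be a finite free
resolution of `ℤ` over `ℤ[G]`, `H` a subgroup of `G` such that the numbers of the cosets `H g` at bounded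
distance grow subexponentially, `Y` a finite free resolution of `ℤ` over `ℤ[H]` and `v` a `ℤ[H]`-linear
chain map from `X` to `Y` which is slow in the degrees `≤ p`. If `H_i(H; C*_r(H)) ≠ 0` for some `i ≤ p`, or
if `Y` has length at most `p` and nonzero Euler characteristic, then `H_j(G; C*_r(G)) ≠ 0` for some
`j ≤ p`. -/
theorem result {G : Type} [Group G] (H : Subgroup G) (hH : SubexpCosets H) (X : FinRes G)
    (Y : FinRes H) (v : ChainMap X Y) (p : ℕ) (hv : ∀ i ≤ p, v.Slow i)
    (h : (∃ i ≤ p, Nontrivial (Y.homology (toRed H) i)) ∨ (Y.len ≤ p ∧ euler Y ≠ 0)) :
    ∃ j ≤ p, Nontrivial (X.homology (toRed G) j) :=
  main' hH v p hv h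

end Pool.Agent.Results.MP_48737f_gt.SlowCoverings
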